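import Pool.Agent.Helper13.GC.C11
import Pool.Agent.Helper13.GC.C4

/-!
# Project BERTINI, block G: inertia at good places, several coordinates

`K = k(x, z_i)` is the function field of a curve.  This is the part of `Helper13/GC/C3`, `C5`, `C6`, `C7` which concerns the
good places, for a family `z_i` instead of one generator.
-/

universe u

set_option linter.unusedSectionVars false

namespace Pool.Agent.BE

open VC Polynomial Pool.Agent.LT Pool.Agent.SC Pool.Agent.Helper91.Sect Pool.Agent Pool.Agent.GC

/-- The good places for the family `z_i`: let `P` be a valuation ring of an extension of `K` which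
contains `x` and (the elements of) `S`, and in which `f(x)` is a unit.  Then `z_i ∈ P` and
endomorphisms over `k(x)` which are congruent to the identity at all `z_i` fix all `z_i`. -/
def GoodFam {k K : Type u} [Field k] [Field K] [Algebra k K] {ι : Type} (x : K) (zz : ι → K)
    (f : k[X]) (S : Finset k) : Prop :=
  ∀ (Ω : Type u) [Field Ω] [Algebra K Ω] (P : ValuationSubring Ω),
    (∀ c ∈ S, algebraMap K Ω (algebraMap k K c) ∈ P) → algebraMap K Ω x ∈ P →
    algebraMap K Ω (aeval x f) ∉ P.nonunits →
    (∀ i, algebraMap K Ω (zz i) ∈ P) ∧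
    ∀ σ : Ω →+* Ω, (∀ c : k, σ (algebraMap K Ω (algebraMap k K c)) =
      algebraMap K Ω (algebraMap k K c)) → σ (algebraMap K Ω x) = algebraMap K Ω x →
      (∀ i, σ (algebraMap K Ω (zz i)) - algebraMap K Ω (zz i) ∈ P.nonunits) →
      ∀ i, σ (algebraMap K Ω (zz i)) = algebraMap K Ω (zz i)

/-- `K = k(x, z_i)` is the function field of a curve. -/
structure FamE {k K : Type u} [Field k] [Field K] [Algebra k K] {ι : Type} (x : K) (zz : ι → K)
    (f : k[X]) (S : Finset k) : Prop where
  ff : IsFunctionField k K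
  x_tr : Transcendental k x
  gen : IntermediateField.adjoin k (insert x (Set.range zz)) = ⊤
  deg : 1 ≤ f.natDegree
  sep : f.Separable
  good : GoodFam x zz f S

section

variable {k K : Type u} [Field k] [Field K] [Algebra k K]

private theorem be_ne_top {x : K} (hx : Transcendental k x)
    {P : ValuationSubring (AlgebraicClosure K)} {a : kbar k K}
    (hxa : algebraMap K (AlgebraicClosure K) x - a ∈ P.nonunits) : P ≠ ⊤ := by
  rintro rfl
  rw [ValuationSubring.mem_nonunits_iff_or] at hxa
  rcases hxa with h | h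
  · apply hx
    have h1 : algebraMap K (AlgebraicClosure K) x = a := sub_eq_zero.1 h
    have h2 : IsAlgebraic k (algebraMap K (AlgebraicClosure K) x) := by
      rw [h1]
      exact mem_algebraicClosure_iff.1 a.2
    exact (isAlgebraic_algebraMap_iff (algebraMap K (AlgebraicClosure K)).injective).1 h2
  · exact h (ValuationSubring.mem_top _)

variable {ι : Type} {x : K} {zz : ι → K} {f : k[X]} {S : Finset k}

theorem FamE.mem_XX [CharZero k] (h : FamE x zz f S) (w : K) :
    algebraMap K (AlgebraicClosure K) w ∈ XX x (rootsB K f) := by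
  intro P hP a ha hxa ρ hρx hρP
  have hP1 := be_ne_top h.x_tr hxa
  have hW : ∀ c : k, algebraMap k (AlgebraicClosure K) c ∈ P := fun c =>
    hP (algebraMap k (kbar k K) c)
  have hres := fun z (hz : z ∈ P) => residue_trivial h.ff hP hP1 ρ hρP hz
  have hk : ∀ c : k, algebraMap K (AlgebraicClosure K) (algebraMap k K c) =
      algebraMap k (AlgebraicClosure K) c := fun c =>
    (IsScalarTower.algebraMap_apply k K (AlgebraicClosure K) c).symm
  have hρk : ∀ c : k, ρ (algebraMap k (AlgebraicClosure K) c) =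
      algebraMap k (AlgebraicClosure K) c := fun c => ρ.commutes (algebraMap k (kbar k K) c)
  have hxP : algebraMap K (AlgebraicClosure K) x ∈ P := by
    have h1 := P.nonunits_le hxa
    have h2 := add_mem h1 (hP a)
    rwa [sub_add_cancel] at h2
  have hfx : algebraMap K (AlgebraicClosure K) (aeval x f) ∉ P.nonunits := by
    set φ : k →+* P := (algebraMap k (AlgebraicClosure K)).codRestrict P.toSubring hW with hφ
    set xP : P := ⟨algebraMap K (AlgebraicClosure K) x, hxP⟩ with hxPdef
    set aP : P := ⟨a, hP a⟩ with haPdef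
    have hcomp : P.subtype.comp φ = algebraMap k (AlgebraicClosure K) := rfl
    have e1 : ((eval xP (f.map φ) : P) : AlgebraicClosure K) =
        algebraMap K (AlgebraicClosure K) (aeval x f) := by
      have h1 : P.subtype (eval xP (f.map φ)) = eval₂ (algebraMap k (AlgebraicClosure K))
          (algebraMap K (AlgebraicClosure K) x) f := by
        rw [eval_map, hom_eval₂, hcomp]
        rfl
      rw [aeval_def, hom_eval₂]
      have h2 : (algebraMap K (AlgebraicClosure K)).comp (algebraMap k K) =
          algebraMap k (AlgebraicClosure K) := RingHom.ext hk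
      rw [h2]
      exact h1
    have e2 : ((eval aP (f.map φ) : P) : AlgebraicClosure K) =
        ((eval a (f.map (algebraMap k (kbar k K))) : kbar k K) : AlgebraicClosure K) := by
      have h1 : P.subtype (eval aP (f.map φ)) = eval₂ (algebraMap k (AlgebraicClosure K))
          (a : AlgebraicClosure K) f := by
        rw [eval_map, hom_eval₂, hcomp]
        rfl
      have h2 : (algebraMap (kbar k K) (AlgebraicClosure K))
          (eval a (f.map (algebraMap k (kbar k K)))) =
          eval₂ (algebraMap k (AlgebraicClosure K)) (a : AlgebraicClosure K) f := by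
        rw [eval_map, hom_eval₂]
        rfl
      exact h1.trans h2.symm
    have hf0 : f.map (algebraMap k (kbar k K)) ≠ 0 := by
      rw [Ne, Polynomial.map_eq_zero]
      rintro rfl
      have := h.deg
      simp at this
    have hfa : eval a (f.map (algebraMap k (kbar k K))) ≠ 0 := by
      intro h0
      apply ha
      simp only [rootsB, Multiset.mem_toFinset]
      rw [mem_roots hf0]
      exact h0
    have hva : P.valuation ((eval a (f.map (algebraMap k (kbar k K))) : kbar k K) :
        AlgebraicClosure K) = 1 := by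
      apply const_val_eq_one hW (mem_algebraicClosure_iff.1 (SetLike.coe_mem _))
      intro h0
      exact hfa (Subtype.ext h0)
    obtain ⟨q, hq⟩ := sub_dvd_eval_sub xP aP (f.map φ)
    have hq' := congrArg (P.subtype) hq
    rw [map_sub, map_mul, map_sub] at hq'
    change ((eval xP (f.map φ) : P) : AlgebraicClosure K) - ((eval aP (f.map φ) : P) :
      AlgebraicClosure K) = (algebraMap K (AlgebraicClosure K) x - a) * q at hq'
    rw [e1, e2] at hq'
    intro hcon
    rw [ValuationSubring.mem_nonunits_iff] at hcon hxa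
    have h1 : P.valuation ((algebraMap K (AlgebraicClosure K) x - a) * q) < 1 := by
      rw [map_mul]
      exact mul_lt_one_of_lt_of_le hxa ((P.valuation_le_one_iff _).2 q.2)
    rw [← hq'] at h1
    have h2 : ((eval a (f.map (algebraMap k (kbar k K))) : kbar k K) : AlgebraicClosure K) =
        algebraMap K (AlgebraicClosure K) (aeval x f) -
        (algebraMap K (AlgebraicClosure K) (aeval x f) -
          ((eval a (f.map (algebraMap k (kbar k K))) : kbar k K) : AlgebraicClosure K)) := by ring
    have h3 : P.valuation ((eval a (f.map (algebraMap k (kbar k K))) : kbar k K) :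
        AlgebraicClosure K) < 1 := by
      rw [h2]
      exact (Valuation.map_sub _ _ _).trans_lt (max_lt hcon h1)
    rw [hva] at h3
    exact lt_irrefl _ h3
  obtain ⟨hz0, hfix⟩ := h.good (AlgebraicClosure K) P (fun c _ => by
    rw [hk]; exact hW c) hxP hfx
  have hz := hfix (ρ : AlgebraicClosure K →+* AlgebraicClosure K) (fun c => by
    rw [hk]; exact hρk c) hρx (fun i => hres _ (hz0 i))
  have hw : w ∈ IntermediateField.adjoin k (insert x (Set.range zz)) := by rw [h.gen]; trivial
  induction hw using IntermediateField.adjoin_induction with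
  | mem v hv =>
    rcases hv with rfl | ⟨i, rfl⟩
    · exact hρx
    · exact hz i
  | algebraMap c => rw [hk]; exact hρk c
  | add a b _ _ ha hb => rw [map_add, map_add, ha, hb]
  | inv a _ ha => rw [map_inv₀, map_inv₀, ha]
  | mul a b _ _ ha hb => rw [map_mul, map_mul, ha, hb]

theorem FamE.UU_le [CharZero k] (h : FamE x zz f S) : UU k K ≤ XX x (rootsB K f) :=
  UU_le_XX_of h.ff h.x_tr h.mem_XX

end

section

variable {k K : Type u} [Field k] [CharZero k] [Field K] [Algebra k K]
  {ι : Type} {x : K} {zz : ι → K} {f : k[X]} {S : Finset k}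

/-- A `kbar`-linear homomorphism which fixes `x` and the `z_i` is trivial on `MM`. -/
theorem FamE.fix_MM (h : FamE x zz f S) {N : Type u} [Field N] [Algebra (kbar k K) N]
    (i σ : UU k K →ₐ[kbar k K] N) (hx : σ (toU (k := k) (K := K) x) = i (toU (k := k) (K := K) x))
    (hz : ∀ j, σ (toU (k := k) (K := K) (zz j)) = i (toU (k := k) (K := K) (zz j))) : ∀ l ∈ MM k K, σ l = i l := by
  have hconst : ∀ c : k, toU (k := k) (K := K) (algebraMap k K c) =
      algebraMap (kbar k K) (UU k K) (algebraMap k (kbar k K) c) := fun c => F2_toU_algebraMap c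
  let j : K →+* UU k K := toU
  let S0 : IntermediateField k K :=
    { RingHom.eqLocusField ((σ : UU k K →+* N).comp j) ((i : UU k K →+* N).comp j) with
      algebraMap_mem' := fun c => by
        change σ (toU (k := k) (K := K) (algebraMap k K c)) = i (toU (k := k) (K := K) (algebraMap k K c))
        rw [hconst, AlgHom.commutes, AlgHom.commutes] }
  have h1 : IntermediateField.adjoin k (insert x (Set.range zz)) ≤ S0 := by
    rw [IntermediateField.adjoin_le_iff]
    rintro w (rfl | ⟨l, rfl⟩)
    · exact hx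
    · exact hz l
  rw [h.gen] at h1
  let T0 : IntermediateField (kbar k K) (UU k K) :=
    { RingHom.eqLocusField (σ : UU k K →+* N) (i : UU k K →+* N) with
      algebraMap_mem' := fun c => by
        change σ (algebraMap (kbar k K) (UU k K) c) = i (algebraMap (kbar k K) (UU k K) c)
        rw [AlgHom.commutes, AlgHom.commutes] }
  have h2 : MM k K ≤ T0 := by
    rw [F2_MM_eq, IntermediateField.adjoin_le_iff]
    rintro _ ⟨w, rfl⟩
    exact h1 (IntermediateField.mem_top (x := w))
  exact fun l hl => h2 hl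

theorem FamE.stab (h : FamE x zz f S)
    (σ : XX x (rootsB K f) ≃ₐ[kbar k K] XX x (rootsB K f))
    (hσ : ∀ l ∈ MM k K, (σ ⟨l, h.UU_le l.2⟩ : AlgebraicClosure K) = (l : AlgebraicClosure K))
    (z : UU k K) : (σ ⟨z, h.UU_le z.2⟩ : AlgebraicClosure K) ∈ UU k K := by
  have halg : Algebra.IsAlgebraic (IntermediateField.adjoin (kbar k K)
      {xX x (rootsB K f)}) (AlgebraicClosure K) :=
    isAlgebraic_XX h.ff h.x_tr _
  have halg2 : Algebra.IsAlgebraic (XX x (rootsB K f)) (AlgebraicClosure K) :=
    Algebra.IsAlgebraic.tower_top (K := IntermediateField.adjoin (kbar k K)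
      {xX x (rootsB K f)}) _
  have hcl : IsAlgClosure (XX x (rootsB K f)) (AlgebraicClosure K) :=
    ⟨inferInstance, halg2⟩
  let ρ : AlgebraicClosure K ≃+* AlgebraicClosure K :=
    IsAlgClosure.equivOfEquiv (AlgebraicClosure K) (AlgebraicClosure K)
      (σ : XX x (rootsB K f) ≃+* XX x (rootsB K f))
  have hρ : ∀ s : XX x (rootsB K f), ρ (s : AlgebraicClosure K) =
      (σ s : AlgebraicClosure K) := by
    intro s
    exact IsAlgClosure.equivOfEquiv_algebraMap (AlgebraicClosure K) (AlgebraicClosure K)
      (σ : XX x (rootsB K f) ≃+* XX x (rootsB K f)) s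
  have hρk : ∀ c : kbar k K, ρ c = c := by
    intro c
    have h1 := hρ (algebraMap (kbar k K) _ c)
    rw [AlgEquiv.commutes] at h1
    exact h1
  have hρL : ∀ w : K, ρ (algebraMap K (AlgebraicClosure K) w) =
      algebraMap K (AlgebraicClosure K) w := by
    intro w
    have h1 := hσ _ (toU_mem (k := k) w)
    rw [← hρ] at h1
    exact h1
  have hsub : ∀ w : K, algebraMap K (AlgebraicClosure K) w ∈ KK k K := fun w =>
    IntermediateField.subset_adjoin _ _ ⟨w, rfl⟩
  have hK : ∀ w : K, ρ (algebraMap K (AlgebraicClosure K) w) ∈ KK k K := by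
    intro w
    rw [hρL]
    exact hsub w
  have hKK : ∀ z ∈ KK k K, ρ z ∈ KK k K := by
    let T0 : IntermediateField (kbar k K) (AlgebraicClosure K) :=
      { Subfield.comap (ρ : AlgebraicClosure K →+* AlgebraicClosure K) (KK k K).toSubfield with
        algebraMap_mem' := fun c => by
          change ρ (c : AlgebraicClosure K) ∈ KK k K
          rw [hρk]
          exact (KK k K).algebraMap_mem c }
    have h1 : KK k K ≤ T0 := by
      conv_lhs => rw [KK]
      rw [IntermediateField.adjoin_le_iff]
      rintro _ ⟨w, rfl⟩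
      exact hK w
    exact fun z hz => h1 hz
  have h4 := F2_map_mem_Kur_of_stab ρ hρk hKK ((mem_UU k K).1 z.2)
  rw [mem_UU, ← hρ]
  exact h4

end

section

variable {k₁ k K : Type u} [Field k₁] [CharZero k₁] [Field k] [Field K]
  [Algebra k₁ k] [Algebra k K] [Algebra k₁ K] [IsScalarTower k₁ k K]
  {ι : Type} {x : K} {zz : ι → K} {f : k[X]} {S : Finset k}

/-- The setup. -/
theorem FamE.csetup (h : FamE x zz f S) {W : ValuationSubring (kbar k K)} {t' : kbar k K}
    (hb : Base (algebraicClosure k₁ (kbar k K)) W t') (hf : GoodRed W f) (hk : CharZero k) :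
    let _ : Algebra (UU k K) (XX x (rootsB K f)) := algUX h.UU_le
    CSetup (algebraicClosure k₁ (kbar k K)) (XX x (rootsB K f)) W t'
      (rootsB K f) (toU (k := k) (K := K) x) (MM k K) (MM k K) := by
  intro iUX
  have hdeg := h.deg
  have hf0 : f ≠ 0 := by
    intro h2
    rw [h2] at hdeg
    simp at hdeg
  have hk0 : CharZero (kbar k K) := charZero_of_injective_algebraMap (algebraMap k _).injective
  have hxX : algebraMap (UU k K) (XX x (rootsB K f)) (toU (k := k) (K := K) x) =
      xX x (rootsB K f) := rfl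
  have htr : Transcendental (kbar k K) (xX x (rootsB K f)) := by
    intro hal
    have h1 : IsAlgebraic (kbar k K) (algebraMap K (AlgebraicClosure K) x) :=
      hal.algHom (XX x (rootsB K f)).val
    have h2 : IsAlgebraic k (algebraMap K (AlgebraicClosure K) x) :=
      h1.restrictScalars k
    exact h.x_tr ((isAlgebraic_algebraMap_iff (algebraMap K (AlgebraicClosure K)).injective).1 h2)
  refine ⟨⟨hb, ?_, ?_, ?_, ?_, ?_⟩, toU_mem x, le_rfl, isCover_UU h.ff, ?_,
    (fun g hg m hm => by rw [hg m hm]; exact hm)⟩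
  · rw [hxX]; exact htr
  · rw [hxX]; exact isGalois_XX h.ff h.x_tr _
  · intro b hb
    exact F2_root_mem_of_lead hf.mem hf.lead hf0 ((mem_rootsB hf0).1 hb)
  · intro b hb b' hb' hne
    by_cases hd : 2 ≤ f.natDegree
    · exact F2_root_diff_of_disc hf.mem hf.lead hf.disc hd ((mem_rootsB hf0).1 hb)
        ((mem_rootsB hf0).1 hb') hne
    · exfalso
      have hd1 : f.natDegree = 1 := by omega
      apply hne
      have h1 := (mem_rootsB hf0).1 hb
      have h2 := (mem_rootsB hf0).1 hb'
      rw [Polynomial.aeval_eq_sum_range, hd1, Finset.sum_range_succ, Finset.sum_range_one, pow_zero,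
        pow_one] at h1 h2
      have h3 : f.coeff 1 ≠ 0 := by
        rw [← hd1]
        exact leadingCoeff_ne_zero.2 hf0
      have h4 : f.coeff 1 • (b - b') = 0 := by
        rw [smul_sub]
        linear_combination h1 - h2
      rcases smul_eq_zero.1 h4 with h5 | h5
      · exact absurd h5 h3
      · exact sub_eq_zero.1 h5
  · intro P hP a ha hPa u hu
    rw [hxX] at hPa ⊢
    exact unr_XX h.ff h.x_tr _ P hP ha hPa hu
  · intro σ hσ z
    refine ⟨⟨_, h.stab σ (fun l hl => ?_) z⟩, ?_⟩
    · have h1 := hσ l hl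
      exact congrArg Subtype.val h1
    · rfl

section aux69

private lemma toU_const69 (a : k) : toU (k := k) (K := K) (algebraMap k K a) =
    algebraMap (kbar k K) (UU k K) (algebraMap k (kbar k K) a) := by
  apply Subtype.ext
  rw [coe_toU]
  exact (IsScalarTower.algebraMap_apply k K (AlgebraicClosure K) a).symm

private lemma nonunitsW69 {U : Type u} [Field U] {V : ValuationSubring U} {g : U ≃+* U}
    (hst : ∀ z, g z ∈ V ↔ z ∈ V) (z : U) : g z ∈ V.nonunits ↔ z ∈ V.nonunits := by
  rw [ValuationSubring.mem_nonunits_iff_or, ValuationSubring.mem_nonunits_iff_or, ← map_inv₀, hst,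
    map_eq_zero_iff g g.injective]

private lemma ind_homW69 {E U R : Type u} [Field E] [Field U] [Algebra E U] [Field R]
    [Algebra E R] {V : ValuationSubring U} {π : V →+* R} (hR : Res E V π) (g : U ≃+* U)
    (hst : ∀ z, g z ∈ V ↔ z ∈ V) :
    ∃ ρ : R →+* R, ∀ z w : V, (w : U) = g (z : U) → ρ (π z) = π w := by
  let f : V →+* V :=
    { toFun := fun z => ⟨g (z : U), (hst z).2 z.2⟩
      map_one' := Subtype.ext (map_one g)
      map_mul' := fun a b => Subtype.ext (map_mul g (a : U) b)
      map_zero' := Subtype.ext (map_zero g)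
      map_add' := fun a b => Subtype.ext (map_add g (a : U) b) }
  have hker : RingHom.ker π ≤ RingHom.ker (π.comp f) := by
    intro z hz
    rw [RingHom.mem_ker] at hz ⊢
    rw [RingHom.comp_apply, hR.ker]
    exact (nonunitsW69 hst z).2 ((hR.ker z).1 hz)
  refine ⟨π.liftOfSurjective hR.surj ⟨π.comp f, hker⟩, fun z w hw => ?_⟩
  rw [RingHom.liftOfSurjective_comp_apply]
  show π (f z) = π w
  congr 1
  exact Subtype.ext hw.symm

/-- an automorphism which is trivial on the residues of `E` induces an automorphism over `E` -/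
private lemma indW69 {E U R : Type u} [Field E] [Field U] [Algebra E U] [Field R]
    [Algebra E R] {V : ValuationSubring U} {π : V →+* R} (hR : Res E V π) (g : U ≃+* U)
    (hst : ∀ z, g z ∈ V ↔ z ∈ V) (hE : ∀ e : E, algebraMap E U e ∈ V)
    (hEg : ∀ e : E, g (algebraMap E U e) - algebraMap E U e ∈ V.nonunits) :
    ∃ ρ : R ≃ₐ[E] R, Induces π g ρ := by
  have hst' : ∀ z, g.symm z ∈ V ↔ z ∈ V := by
    intro z
    rw [← hst, g.apply_symm_apply]
  obtain ⟨ρ1, h1⟩ := ind_homW69 hR g hst
  obtain ⟨ρ2, h2⟩ := ind_homW69 hR g.symm hst'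
  have e1 : ρ2.comp ρ1 = RingHom.id R := by
    ext r
    obtain ⟨z, rfl⟩ := hR.surj r
    rw [RingHom.comp_apply, h1 z ⟨g z, (hst z).2 z.2⟩ rfl, h2 _ z (g.symm_apply_apply (z : U)).symm]
    rfl
  have e2 : ρ1.comp ρ2 = RingHom.id R := by
    ext r
    obtain ⟨z, rfl⟩ := hR.surj r
    rw [RingHom.comp_apply, h2 z ⟨g.symm z, (hst' z).2 z.2⟩ rfl,
      h1 _ z (g.apply_symm_apply (z : U)).symm]
    rfl
  let ρ : R ≃+* R := RingEquiv.ofRingHom ρ1 ρ2 e2 e1
  refine ⟨AlgEquiv.ofRingEquiv (f := ρ) ?_, ?_⟩
  · intro e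
    have hgE : g (algebraMap E U e) ∈ V := (hst _).2 (hE e)
    have h3 : ρ (π ⟨_, hE e⟩) = π ⟨_, hgE⟩ := h1 _ _ rfl
    have h4 : π ⟨_, hgE⟩ - π ⟨_, hE e⟩ = 0 := by
      rw [← map_sub]
      exact (hR.ker _).2 (hEg e)
    rw [← hR.const e ⟨_, hE e⟩ rfl, h3]
    exact sub_eq_zero.1 h4
  · intro z w hw
    exact h1 z w hw

end aux69

/-- The action of a section extends to `XX`. -/
theorem FamE.exists_extX (h : FamE x zz f S) (hk : CharZero k) (s : GaloisSection k K)
    (γ : Gk k K) :
    ∃ σ' : XX x (rootsB K f) ≃+* XX x (rootsB K f),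
      (∀ z : UU k K, (σ' ⟨z, h.UU_le z.2⟩ : AlgebraicClosure K) = (actU s γ z : UU k K)) ∧
      ∀ c : kbar k K, σ' (algebraMap (kbar k K) _ c) = algebraMap (kbar k K) _ (γ c) := by
  obtain ⟨ρ, hρ⟩ := exists_ext s γ
  have hc : ∀ c : kbar k K, ρ c = γ c := fun c => ext_const s hρ c
  have hc' : ∀ c : kbar k K, ρ.symm c = (γ.symm c : kbar k K) := by
    intro c
    rw [AlgEquiv.symm_apply_eq, hc, AlgEquiv.apply_symm_apply]
  have hB : ∀ (δ : Gk k K) (b : kbar k K), phi k K δ b ∈ rootsB K f → b ∈ rootsB K f := by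
    intro δ b hb
    have h1 := phi_rootsB (f := f) δ⁻¹ hb
    have h2 : phi k K δ⁻¹ (phi k K δ b) = b := δ.symm_apply_apply b
    rwa [h2] at h1
  have m1 : ∀ z ∈ XX x (rootsB K f),
      ρ z ∈ XX x (rootsB K f) := by
    intro z hz
    exact XX_stable (ρ : AlgebraicClosure K ≃+* AlgebraicClosure K) (phi k K γ) hc
      (ρ.commutes _) (fun b => hB γ b) (fun b hb => phi_rootsB γ hb) hz
  have m2 : ∀ z ∈ XX x (rootsB K f),
      ρ.symm z ∈ XX x (rootsB K f) := by
    intro z hz
    exact XX_stable (ρ.symm : AlgebraicClosure K ≃+* AlgebraicClosure K) (phi k K γ⁻¹) hc'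
      (ρ.symm.commutes _) (fun b => hB γ⁻¹ b) (fun b hb => phi_rootsB γ⁻¹ hb) hz
  refine ⟨{ toFun := fun z => ⟨ρ z, m1 z z.2⟩
            invFun := fun z => ⟨ρ.symm z, m2 z z.2⟩
            left_inv := fun z => Subtype.ext (ρ.symm_apply_apply (z : AlgebraicClosure K))
            right_inv := fun z => Subtype.ext (ρ.apply_symm_apply (z : AlgebraicClosure K))
            map_mul' := fun a b => Subtype.ext (map_mul ρ (a : AlgebraicClosure K) b)
            map_add' := fun a b => Subtype.ext (map_add ρ (a : AlgebraicClosure K) b) },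
    fun z => ?_, fun c => ?_⟩
  · rw [coe_actU, ← hρ]
    rfl
  · apply Subtype.ext
    exact hc c


/-- the consequences of `h.good` at a Gauss extension -/
private lemma FamE.good69 (h : FamE x zz f S) {W : ValuationSubring (kbar k K)}
    {t' : kbar k K}
    (hb : Base (algebraicClosure k₁ (kbar k K)) W t') (hf : GoodRed W f)
    (hS : ∀ c ∈ S, algebraMap k (kbar k K) c ∈ W) {N : Type u} [Field N]
    [Algebra (kbar k K) N] (i : UU k K →ₐ[kbar k K] N)
    {V : ValuationSubring N}
    (hV : Gauss (algebraicClosure k₁ (kbar k K)) W (i (toU (k := k) (K := K) x)) V) :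
    (∀ j, i (toU (k := k) (K := K) (zz j)) ∈ V) ∧
      ∀ σ : N →+* N, (∀ c : kbar k K, σ (algebraMap (kbar k K) N c) = algebraMap (kbar k K) N c) →
        σ (i (toU (k := k) (K := K) x)) = i (toU (k := k) (K := K) x) →
        (∀ j, σ (i (toU (k := k) (K := K) (zz j))) - i (toU (k := k) (K := K) (zz j)) ∈ V.nonunits) →
        ∀ j, σ (i (toU (k := k) (K := K) (zz j))) = i (toU (k := k) (K := K) (zz j)) := by
  let j : K →+* N := (i : UU k K →+* N).comp (toU (k := k) (K := K))
  let _ : Algebra K N := j.toAlgebra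
  have hj : ∀ w : K, algebraMap K N w = i (toU (k := k) (K := K) w) := fun _ => rfl
  have hjc : ∀ c : k, algebraMap K N (algebraMap k K c) =
      algebraMap (kbar k K) N (algebraMap k (kbar k K) c) := by
    intro c
    rw [hj, toU_const69, AlgHom.commutes]
  have hjf : algebraMap K N (aeval x f) =
      aeval (i (toU (k := k) (K := K) x)) (f.map (algebraMap k (kbar k K))) := by
    rw [aeval_def, hom_eval₂, aeval_def, eval₂_map]
    have e : (algebraMap K N).comp (algebraMap k K) =
        (algebraMap (kbar k K) N).comp (algebraMap k (kbar k K)) := RingHom.ext hjc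
    rw [e, hj]
  have c1 : ∀ c ∈ S, algebraMap K N (algebraMap k K c) ∈ V := by
    intro c hc
    rw [hjc, hV.mem_iff]
    exact hS c hc
  have c2 : algebraMap K N x ∈ V := hV.x_mem
  have c3 : algebraMap K N (aeval x f) ∉ V.nonunits := by
    rw [hjf, ValuationSubring.mem_nonunits_iff, val_f (x := x) hb hf hV]
    exact lt_irrefl _
  have h1 := h.good N V c1 c2 c3
  refine ⟨h1.1, fun σ hσ hσx hσz => h1.2 σ (fun c => ?_) hσx hσz⟩
  rw [hjc, hσ]

/-- Inertia is trivial on the residue field of `MM`. -/
theorem FamE.inert_trivial_MM (h : FamE x zz f S) (s : GaloisSection k K)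
    {W : ValuationSubring (kbar k K)} {t' : kbar k K}
    (hb : Base (algebraicClosure k₁ (kbar k K)) W t') (hf : GoodRed W f)
    (hS : ∀ c ∈ S, algebraMap k (kbar k K) c ∈ W)
    {V : ValuationSubring (UU k K)}
    (hV : Gauss (algebraicClosure k₁ (kbar k K)) W (toU (k := k) (K := K) x) V) {τ : Gk k K}
    (hτ : InInert W τ) {z : UU k K} (hz : z ∈ V) (hzL : z ∈ MM k K) :
    actU s τ z - z ∈ V.nonunits := by
  have hac : IsAlgClosed (algebraicClosure k₁ (kbar k K)) :=
    (inferInstance : IsAlgClosure k₁ (algebraicClosure k₁ (kbar k K))).isAlgClosed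
  have hk0 : CharZero k := charZero_of_injective_algebraMap (algebraMap k₁ k).injective
  let iUX : Algebra (UU k K) (XX x (rootsB K f)) := algUX h.UU_le
  have st1 : IsScalarTower (kbar k K) (UU k K) (XX x (rootsB K f)) :=
    IsScalarTower.of_algebraMap_eq fun _ => rfl
  have st2 : IsScalarTower (algebraicClosure k₁ (kbar k K)) (UU k K)
      (XX x (rootsB K f)) := IsScalarTower.of_algebraMap_eq fun _ => rfl
  have hu := h.csetup hb hf hk0
  -- the embedding
  let i : UU k K →ₐ[kbar k K] XX x (rootsB K f) :=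
    IsScalarTower.toAlgHom (kbar k K) (UU k K) (XX x (rootsB K f))
  obtain ⟨V', hV', hcomap⟩ := exists_gauss_ext (X := XX x (rootsB K f)) hV
  obtain ⟨σ', hσU, hσc⟩ := h.exists_extX hk0 s τ
  have hσi : ∀ w : UU k K, σ' (i w) = i (actU s τ w) := fun w => Subtype.ext (hσU w)
  have hσx : σ' (i (toU (k := k) (K := K) x)) = i (toU (k := k) (K := K) x) := by
    rw [hσi, actU_toU]
  have hst : ∀ w, σ' w ∈ V' ↔ w ∈ V' := fun w =>
    hu.set.stable hV' σ' (phi k K τ) hσc (fun a => hτ.1 a) hσx w
  have hE : ∀ e : algebraicClosure k₁ (kbar k K),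
      algebraMap (algebraicClosure k₁ (kbar k K)) (XX x (rootsB K f)) e ∈
        V' := by
    intro e
    have h1 : algebraMap (algebraicClosure k₁ (kbar k K))
        (XX x (rootsB K f)) e =
      algebraMap (kbar k K) (XX x (rootsB K f))
        (algebraMap _ (kbar k K) e) := rfl
    rw [h1, hV'.mem_iff]
    exact hb.const e
  -- the residue field
  let iota : algebraicClosure k₁ (kbar k K) →+* V' :=
    (algebraMap (algebraicClosure k₁ (kbar k K))
      (XX x (rootsB K f))).codRestrict V'.toSubring hE
  let iA : Algebra (algebraicClosure k₁ (kbar k K)) (IsLocalRing.ResidueField V') :=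
    ((IsLocalRing.residue V').comp iota).toAlgebra
  have hR : Res (algebraicClosure k₁ (kbar k K)) V' (IsLocalRing.residue V') := by
    refine ⟨IsLocalRing.residue_surjective, fun w => ?_, fun e w hw => ?_⟩
    · rw [IsLocalRing.residue_eq_zero_iff, ValuationSubring.coe_mem_nonunits_iff]
    · have h1 : w = iota e := Subtype.ext hw
      rw [h1]
      rfl
  obtain ⟨ρ, hρ⟩ := indW69 hR σ' hst hE (by
    intro e
    have h1 : algebraMap (algebraicClosure k₁ (kbar k K))
        (XX x (rootsB K f)) e =
      algebraMap (kbar k K) (XX x (rootsB K f))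
        (algebraMap _ (kbar k K) e) := rfl
    rw [h1, hσc, ← map_sub, ValuationSubring.mem_nonunits_iff, A1.val_lt_one_iff hV',
      ← ValuationSubring.mem_nonunits_iff]
    exact hτ.2 _ (hb.const e))
  obtain ⟨g', hgx, hg⟩ := hu.set.exists_induces hV' hR ρ (hρ _ _ hσx.symm)
  have hgst : ∀ w, w ∈ V' → g' w ∈ V' := fun w hw =>
    (hu.set.stable hV' (g' : XX x (rootsB K f) ≃+*
        XX x (rootsB K f)) (RingEquiv.refl _) (fun a => g'.commutes a)
      (fun _ => Iff.rfl) hgx w).2 hw
  have hcmp : ∀ w (hw : w ∈ V'), σ' w - g' w ∈ V'.nonunits := by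
    intro w hw
    have h1 := hρ ⟨w, hw⟩ ⟨σ' w, (hst w).2 hw⟩ rfl
    have h2 := hg ⟨w, hw⟩ ⟨g' w, hgst w hw⟩ rfl
    have h3 : IsLocalRing.residue V' (⟨σ' w, (hst w).2 hw⟩ - ⟨g' w, hgst w hw⟩) = 0 := by
      rw [map_sub, ← h1, ← h2, sub_self]
    exact (hR.ker _).1 h3
  obtain ⟨hz0, hrig⟩ := h.good69 hb hf hS i hV'
  have hgz : ∀ j, g' (i (toU (k := k) (K := K) (zz j))) = i (toU (k := k) (K := K) (zz j)) := by
    refine hrig (g' : XX x (rootsB K f) →+*
        XX x (rootsB K f)) (fun c => g'.commutes c) hgx fun j => ?_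
    have h1 := hcmp _ (hz0 j)
    rw [hσi, actU_toU, ValuationSubring.mem_nonunits_iff] at h1
    rw [ValuationSubring.mem_nonunits_iff, ← Valuation.map_neg, neg_sub]
    exact h1
  have hfix : g' (i z) = i z := h.fix_MM i
    ((g' : XX x (rootsB K f) →ₐ[kbar k K]
        XX x (rootsB K f)).comp i) hgx hgz z hzL
  have hiz : i z ∈ V' := by
    rw [← hcomap] at hz
    exact hz
  have h1 := hcmp _ hiz
  rw [hσi, hfix, ← map_sub] at h1
  rw [← hcomap, comap_nonunits]
  exact h1

end

end Pool.Agent.BE
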