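import Pool.Agent.Helper13.BE.C1
import Pool.Agent.Helper13.PL.G1

/-!
# Project BERTINI, block G: inertia at good places acts trivially on the residues of the maximal unramified extension

`K = k(x, z_v)`, `F_v(x, z_v) = 0` with `F_v ∈ k[X][Y]` monic in `Y`, `A_v F_v + B_v F_v' = D_v` with `D_v ∈ k[X]`, and
`D_v` divides a power of the separable polynomial `g`.
-/

universe u

set_option linter.unusedSectionVars false

namespace Pool.Agent.BE

open VC Polynomial Pool.Agent.LT Pool.Agent.SC Pool.Agent.Helper91.Sect Pool.Agent Pool.Agent.GC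

/-- coordinatewise -/
theorem goodFam_of {k K : Type u} [Field k] [Field K] [Algebra k K] {ι : Type} {x : K}
    {zz : ι → K} {f : k[X]} {S : Finset k} (h : ∀ v, GoodPoly (1 : K) x (zz v) f S) :
    GoodFam x zz f S := by
  intro Ω _ _ P hSP hxP hfP
  refine ⟨fun v => (h v Ω P hSP hxP hfP).2.2.1, fun σ hσ hσx hσz v => ?_⟩
  exact (h v Ω P hSP hxP hfP).2.2.2 σ hσ hσx (hσz v)

/-- **Inertia at good places acts trivially on the residues of the maximal unramified extension.** -/
theorem inert_trivial_fam {k₁ k K : Type u} [Field k₁] [CharZero k₁] [Field k] [Field K]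
    [Algebra k₁ k] [Algebra k K] [Algebra k₁ K] [IsScalarTower k₁ k K]
    (hF₁ : ∃ S : Finset k₁, Subfield.closure (S : Set k₁) = ⊤)
    (t : k) (hfin : FiniteDimensional (IntermediateField.adjoin k₁ {t}) k)
    {ι : Type} [Finite ι] {x : K} {zz : ι → K} (hx : Transcendental k x)
    (hgen : IntermediateField.adjoin k (insert x (Set.range zz)) = ⊤)
    {F A B : ι → k[X][X]} {D Q : ι → k[X]} {g : k[X]} {N : ι → ℕ} (hF : ∀ v, (F v).Monic)
    (hxy : ∀ v, eval₂ (aeval x : k[X] →ₐ[k] K).toRingHom (zz v) (F v) = 0)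
    (hid : ∀ v, A v * F v + B v * derivative (F v) = C (D v)) (hD : ∀ v, D v * Q v = g ^ N v)
    (hg1 : 1 ≤ g.natDegree) (hgs : g.Separable)
    (s : GaloisSection k K)
    {W : ValuationSubring (kbar k K)} (hW : W ≠ ⊤)
    (hk₁ : ∀ c : k₁, algebraMap k₁ (kbar k K) c ∈ W) (hgW : GoodRed W g)
    (hWF : ∀ v i j, algebraMap k (kbar k K) (((F v).coeff i).coeff j) ∈ W)
    (hWB : ∀ v i j, algebraMap k (kbar k K) (((B v).coeff i).coeff j) ∈ W)
    (hWQ : ∀ v i, algebraMap k (kbar k K) ((Q v).coeff i) ∈ W)
    {V : ValuationSubring (UU k K)}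
    (hV : Gauss (algebraicClosure k₁ (kbar k K)) W (toU (k := k) (K := K) x) V)
    {τ : Gk k K} (hτ : InInert W τ) {z : UU k K} (hz : z ∈ V) : actU s τ z - z ∈ V.nonunits := by
  classical
  have _ := Fintype.ofFinite ι
  have hac : IsAlgClosed (algebraicClosure k₁ (kbar k K)) :=
    (inferInstance : IsAlgClosure k₁ (algebraicClosure k₁ (kbar k K))).isAlgClosed
  have hk0 : CharZero k := charZero_of_injective_algebraMap (algebraMap k₁ k).injective
  -- the finite set of coefficients
  let cf : k[X][X] → Finset k := fun G =>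
    G.support.biUnion fun i => (G.coeff i).support.image (G.coeff i).coeff
  let S : Finset k := insert 0 (Finset.univ.biUnion fun v : ι =>
    cf (F v) ∪ cf (B v) ∪ (Q v).support.image (Q v).coeff)
  have hcoef : ∀ (G : k[X][X]) (i j : ℕ), (G.coeff i).coeff j = 0 ∨
      (G.coeff i).coeff j ∈ cf G := by
    intro G i j
    by_cases h0 : (G.coeff i).coeff j = 0
    · exact Or.inl h0
    · right
      rw [Finset.mem_biUnion]
      refine ⟨i, ?_, Finset.mem_image.2 ⟨j, mem_support_iff.2 h0, rfl⟩⟩
      rw [mem_support_iff]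
      intro h1
      rw [h1, coeff_zero] at h0
      exact h0 rfl
  have hSF : ∀ v i j, ((F v).coeff i).coeff j ∈ S := by
    intro v i j
    rcases hcoef (F v) i j with h | h
    · rw [h]; exact Finset.mem_insert_self _ _
    · exact Finset.mem_insert_of_mem (Finset.mem_biUnion.2 ⟨v, Finset.mem_univ _,
        Finset.mem_union_left _ (Finset.mem_union_left _ h)⟩)
  have hSB : ∀ v i j, ((B v).coeff i).coeff j ∈ S := by
    intro v i j
    rcases hcoef (B v) i j with h | h
    · rw [h]; exact Finset.mem_insert_self _ _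
    · exact Finset.mem_insert_of_mem (Finset.mem_biUnion.2 ⟨v, Finset.mem_univ _,
        Finset.mem_union_left _ (Finset.mem_union_right _ h)⟩)
  have hSQ : ∀ v i, (Q v).coeff i ∈ S := by
    intro v i
    by_cases h0 : (Q v).coeff i = 0
    · rw [h0]; exact Finset.mem_insert_self _ _
    · exact Finset.mem_insert_of_mem (Finset.mem_biUnion.2 ⟨v, Finset.mem_univ _,
        Finset.mem_union_right _ (Finset.mem_image.2 ⟨i, mem_support_iff.2 h0, rfl⟩)⟩)
  have hSW : ∀ c ∈ S, algebraMap k (kbar k K) c ∈ W := by
    intro c hc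
    rcases Finset.mem_insert.1 hc with rfl | hc
    · rw [map_zero]; exact W.zero_mem
    obtain ⟨v, -, hc⟩ := Finset.mem_biUnion.1 hc
    rcases Finset.mem_union.1 hc with hc | hc
    · rcases Finset.mem_union.1 hc with hc | hc
      · obtain ⟨i, -, h1⟩ := Finset.mem_biUnion.1 hc
        obtain ⟨j, -, rfl⟩ := Finset.mem_image.1 h1
        exact hWF v i j
      · obtain ⟨i, -, h1⟩ := Finset.mem_biUnion.1 hc
        obtain ⟨j, -, rfl⟩ := Finset.mem_image.1 h1
        exact hWB v i j
    · obtain ⟨j, -, rfl⟩ := Finset.mem_image.1 hc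
      exact hWQ v j
  -- the function field
  have hff : IsFunctionField k K := by
    refine ⟨x, hx, ?_⟩
    have hyint : ∀ v, IsIntegral (IntermediateField.adjoin k {x}) (zz v) := by
      intro v
      let ψ : k[X] →+* IntermediateField.adjoin k {x} :=
        (aeval (IntermediateField.AdjoinSimple.gen k x) : k[X] →ₐ[k] _).toRingHom
      refine ⟨(F v).map ψ, (hF v).map ψ, ?_⟩
      rw [eval₂_map]
      have e1 : (algebraMap (IntermediateField.adjoin k {x}) K).comp ψ =
          (aeval x : k[X] →ₐ[k] K).toRingHom := by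
        refine RingHom.ext fun r => ?_
        change algebraMap (IntermediateField.adjoin k {x}) K
          (aeval (IntermediateField.AdjoinSimple.gen k x) r) = aeval x r
        rw [← aeval_algebraMap_apply, IntermediateField.AdjoinSimple.algebraMap_gen]
      rw [e1]
      exact hxy v
    have h1 : IntermediateField.adjoin (IntermediateField.adjoin k {x}) (Set.range zz) = ⊤ := by
      have h2 := IntermediateField.adjoin_adjoin_left k ({x} : Set K) (Set.range zz)
      apply IntermediateField.restrictScalars_injective k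
      rw [h2, IntermediateField.restrictScalars_top, ← hgen]
      rfl
    have h2 : FiniteDimensional (IntermediateField.adjoin k {x})
        (IntermediateField.adjoin (IntermediateField.adjoin k {x}) (Set.range zz)) :=
      IntermediateField.finiteDimensional_adjoin (by
        rintro _ ⟨v, rfl⟩
        exact hyint v)
    rw [h1] at h2
    exact Module.Finite.equiv (IntermediateField.topEquiv
      (F := IntermediateField.adjoin k {x}) (E := K)).toLinearEquiv
  have h : FamE x zz g S := ⟨hff, hx, hgen, hg1, hgs, goodFam_of fun v =>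
    Pool.Agent.PL.plane_goodPoly (hF v) (hxy v) (hid v) (hD v) (hSF v) (hSB v) (hSQ v)⟩
  obtain ⟨t', hb⟩ := exists_base' (K := K) t hfin hW hk₁
  let iUX : Algebra (UU k K) (XX x (rootsB K g)) := algUX h.UU_le
  have s1 : IsScalarTower (kbar k K) (UU k K) (XX x (rootsB K g)) :=
    IsScalarTower.of_algebraMap_eq fun _ => rfl
  have s2 : IsScalarTower (algebraicClosure k₁ (kbar k K)) (UU k K)
      (XX x (rootsB K g)) := IsScalarTower.of_algebraMap_eq fun _ => rfl
  have hu : CSetup (algebraicClosure k₁ (kbar k K)) (XX x (rootsB K g)) W t'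
    (rootsB K g) (toU (k := k) (K := K) x) (MM k K) (MM k K) := h.csetup hb hgW hk0
  have ha := locAct' s hF₁ t hfin hW hk₁ x
  exact trivialC ha hu hV (τ := τ) hτ (fun z hz hzM =>
    h.inert_trivial_MM s hb hgW hSW hV hτ hz hzM) z hz

end Pool.Agent.BE
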